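import Pool.Agent.Lib.MP_cf0da3_ag.Det.Main

/-! Determinantal varieties of the expected codimension, cut out by the maximal minors of a matrix
of forms of one degree, carry Ulrich sheaves. -/

namespace Pool.Agent.Results.MP_cf0da3_ag.DetUlrich

open MvPolynomial Pool.Agent.Lib.MP_cf0da3_ag.Det

theorem result (k : Type) [Field k] [IsAlgClosed k] (m n c d e : ℕ) (he : 0 < e)
    (hd : d + (c + 1) = m)
    (A : Matrix (Fin (n + 1)) (Fin (n + 1 + c)) (MvPolynomial (Fin (m + 1)) k))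
    (hA : ∀ i j, (A i j).IsHomogeneous e)
    (P : Ideal (MvPolynomial (Fin (m + 1)) k))
    (hP : P = Ideal.span
      (Set.range fun s : Fin (n + 1) → Fin (n + 1 + c) => (A.submatrix id s).det))
    (ℓ : Fin (d + 1) → MvPolynomial (Fin (m + 1)) k) (hℓ : ∀ i, (ℓ i).IsHomogeneous 1)
    (hinj : Function.Injective
      (MvPolynomial.aeval (fun i => Ideal.Quotient.mk P (ℓ i)) :
        MvPolynomial (Fin (d + 1)) k →ₐ[k] MvPolynomial (Fin (m + 1)) k ⧸ P))
    (hfin : (MvPolynomial.aeval (fun i => Ideal.Quotient.mk P (ℓ i)) :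
        MvPolynomial (Fin (d + 1)) k →ₐ[k] MvPolynomial (Fin (m + 1)) k ⧸ P).toRingHom.Finite) :
    ∃ (r : ℕ) (ψ : MvPolynomial (Fin (m + 1)) k →ₐ[k]
        Matrix (Fin r) (Fin r) (MvPolynomial (Fin (d + 1)) k)),
      0 < r ∧
      (∀ (j : Fin (m + 1)) (a b : Fin r), ((ψ (MvPolynomial.X j)) a b).IsHomogeneous 1) ∧
      (∀ f ∈ P, ψ f = 0) ∧
      (∀ i : Fin (d + 1), ψ (ℓ i) = Matrix.diagonal (fun _ => MvPolynomial.X i)) :=
  det_ulrich' he hd (by omega) A hA hP hℓ hinj hfin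

end Pool.Agent.Results.MP_cf0da3_ag.DetUlrich
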