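import Pool.Agent.Lib.MP_cf0da3_ag.ShDefs
import Pool.Agent.Lib.MP_cf0da3_ag.ShMain

set_option autoImplicit false

namespace Pool.Agent.Results.MP_cf0da3_ag.NoUlrichSheaf

open CategoryTheory AlgebraicGeometry Pool.Agent.Lib.MP_cf0da3_ag

/-- There is an integral closed subscheme `X` of projective `119`-space over the algebraic closure
of the rationals such that, for every linear projection `π` from `X` to a projective space, no
sheaf of modules on `X` has a direct image that is free of positive finite rank. -/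
theorem result : ∃ (X : Scheme.{0}) (ι : X ⟶ PP (AlgebraicClosure ℚ) 119),
    IsClosedImmersion ι ∧ IsIntegral X ∧ ¬ HasFreeProjection ι := by
  obtain ⟨X, ι, h1, h2, h3⟩ := no_ulrich_sheaf
  refine ⟨X, ι, h1, h2, ?_⟩
  rintro ⟨d, ℓ, hℓ, π, hπ, U, r, hr, ⟨φ⟩⟩
  exact (h3 d ℓ hℓ π hπ U r hr).false φ

end Pool.Agent.Results.MP_cf0da3_ag.NoUlrichSheaf
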